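import Mathlib
import Pool.Agent.H658R3.ZM7

/-!
Pseudocompact minimal groups with property `Z_m` have property `Z`.
-/

set_option autoImplicit false

open Filter Topology

namespace Pool.Agent.Results.MP_dc204c_gt.PseudocompactZm

/-- Let `G` be a Hausdorff topological group which is pseudocompact (every continuous real-valued
function is bounded) and minimal (every continuous group isomorphism onto a Hausdorff topological
group has continuous inverse).  If every closed zero-dimensional metrizable subgroup of `G` is
discrete (property `Z_m`), then every closed zero-dimensional subgroup of `G` is discrete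
(property `Z`). -/
theorem result :
    ∀ (G : Type) [Group G] [TopologicalSpace G] [IsTopologicalGroup G] [T2Space G],
      (∀ f : G → ℝ, Continuous f → ∃ M : ℝ, ∀ x, |f x| ≤ M) →
      (∀ (H : Type) [Group H] [TopologicalSpace H] [IsTopologicalGroup H] [T2Space H]
          (f : G ≃* H), Continuous f → Continuous f.symm) →
      (∀ S : Subgroup G, IsClosed (S : Set G) →
          TopologicalSpace.IsTopologicalBasis {s : Set S | IsClopen s} →
          TopologicalSpace.MetrizableSpace S → DiscreteTopology S) →
      ∀ S : Subgroup G, IsClosed (S : Set G) →
          TopologicalSpace.IsTopologicalBasis {s : Set S | IsClopen s} → DiscreteTopology S := by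
  intro G _ _ _ _ hpc hmin hZm S hS hzd
  have hP := H658.ZM.precompact_of_pseudocompact G hpc
  have hm := H658.ZM.minimal_of G hmin
  have hnb : ¬ H658.ZM.Bad G := by
    rintro ⟨H, h1, h2, h3, h4⟩
    exact h4 (hZm H h1 h2 h3)
  have hmet := H658.ZM.metrizable_of_not_bad hP hm hnb
  exact hZm S hS hzd IsEmbedding.subtypeVal.metrizableSpace

end Pool.Agent.Results.MP_dc204c_gt.PseudocompactZm
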